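import Pool.Agent.Q233.TFLong

/-!
# MP_88afc7_mp: molecules of fixed shape interact like `l⁻⁷` in Thomas-Fermi theory
-/

set_option autoImplicit false
open MeasureTheory Set Filter Topology

namespace Pool.Agent.Results.MP_88afc7_mp.SeventhPower

/-- three dimensional Euclidean space -/
abbrev E3 := EuclideanSpace ℝ (Fin 3)

/-- the densities: nonnegative, in `L¹ ∩ L^{5/3}` -/
def Admissible (ρ : E3 → ℝ) : Prop :=
  Measurable ρ ∧ (∀ x, 0 ≤ ρ x) ∧ Integrable ρ ∧ Integrable (fun x => ρ x ^ (5/3 : ℝ))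

section

variable {ι : Type} [Fintype ι] [DecidableEq ι]

/-- the nuclear repulsion: half of the sum over the ordered pairs of different nuclei -/
noncomputable def repulsion (z : ι → ℝ) (R : ι → E3) : ℝ :=
  1/2 * ∑ i, ∑ j, if i = j then 0 else z i * z j / ‖R i - R j‖

/-- the Thomas-Fermi functional of the nuclei `z i` at `R i`, nuclear repulsion included -/
noncomputable def functional (γ : ℝ) (z : ι → ℝ) (R : ι → E3) (ρ : E3 → ℝ) : ℝ :=
  3/5 * γ * (∫ x, ρ x ^ (5/3 : ℝ)) - (∫ x, (∑ j, z j / ‖x - R j‖) * ρ x)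
    + 1/2 * (∫ x, ∫ y, ρ x * ρ y / ‖x - y‖) + repulsion z R

/-- the energies of the admissible densities of total mass `∑ z` (neutral case) -/
def energies (γ : ℝ) (z : ι → ℝ) (R : ι → E3) : Set ℝ :=
  {E | ∃ ρ, Admissible ρ ∧ ∫ x, ρ x = ∑ i, z i ∧ functional γ z R ρ = E}

/-- the Thomas-Fermi energy of the neutral configuration -/
noncomputable def energy (γ : ℝ) (z : ι → ℝ) (R : ι → E3) : ℝ := sInf (energies γ z R)

end

/-- a neutral molecule: finitely many (at least one) nuclei with positive charges at distinct points -/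
structure Molecule where
  k : ℕ
  hk : 0 < k
  z : Fin k → ℝ
  hz : ∀ i, 0 < z i
  R : Fin k → E3
  hR : Function.Injective R

/-- the interaction energy `ΔE(l)`: the nucleus `i` of the molecule `m` is placed at `R_i + l Y_m` -/
noncomputable def interaction (γ : ℝ) {n : ℕ} (M : Fin n → Molecule) (Y : Fin n → E3) (l : ℝ) : ℝ :=
  energy γ (fun p : (m : Fin n) × Fin (M m).k => (M p.1).z p.2) (fun p => (M p.1).R p.2 + l • Y p.1)
    - ∑ m, energy γ (M m).z (M m).R

open Pool.Agent.Helper557 Pool.Agent.Helper557.TFP Pool.Agent.H9R2.TF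
  Pool.Agent.Q233.TFMol Pool.Agent.Q233.TFIon Pool.Agent.Q233.TFDil Pool.Agent.Q233.TFTeller Pool.Agent.Q233.TFFar

section

variable {ι κ : Type} [Fintype ι] [DecidableEq ι] [Fintype κ] [DecidableEq κ]

lemma repulsion_equiv (e : κ ≃ ι) (z : ι → ℝ) (R : ι → E3) : repulsion (fun i => z (e i)) (fun i => R (e i)) = repulsion z R := by
  unfold repulsion
  congr 1
  rw [← e.sum_comp]
  refine Finset.sum_congr rfl (fun i _ => ?_)
  rw [← e.sum_comp]
  refine Finset.sum_congr rfl (fun j _ => ?_)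
  simp only [e.injective.eq_iff]

lemma energies_equiv (e : κ ≃ ι) (γ : ℝ) (z : ι → ℝ) (R : ι → E3) :
    energies γ (fun i => z (e i)) (fun i => R (e i)) = energies γ z R := by
  have h1 : ∑ i, z (e i) = ∑ i, z i := e.sum_comp z
  have h2 : ∀ ρ, functional γ (fun i => z (e i)) (fun i => R (e i)) ρ = functional γ z R ρ := by
    intro ρ
    unfold functional
    rw [repulsion_equiv e z R]
    have : ∀ x : E3, ∑ j, z (e j) / ‖x - R (e j)‖ = ∑ j, z j / ‖x - R j‖ := fun x => e.sum_comp (fun j => z j / ‖x - R j‖)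
    simp only [this]
  unfold energies
  simp only [h1, h2]

end

section

variable {k : ℕ}

lemma repulsion_UU (z : Fin k → ℝ) (R : Fin k → E3) : repulsion z R = UU' z R := by
  have h := Pool.Agent.Q233.TFSup.dsum (A := 0) (F := fun i j => if i = j then 0 else z i * z j / ‖R i - R j‖) (fun i => by simp) (fun i j => by
    by_cases h : i = j
    · simp [h]
    · rw [if_neg h, if_neg (fun h' => h h'.symm), norm_sub_rev]; ring)
  unfold repulsion UU'
  rw [mul_zero, zero_add] at h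
  rw [h, ← mul_assoc]
  norm_num
  refine Finset.sum_congr rfl (fun i _ => Finset.sum_congr rfl (fun j hj => ?_))
  rw [if_neg (ne_of_lt (Finset.mem_Ioi.1 hj))]

lemma functional_dl {γ : ℝ} (hγ : 0 < γ) (z : Fin k → ℝ) (R : Fin k → E3) {ρ : E3 → ℝ} (h : ∀ x, 0 ≤ ρ x) :
    functional γ z (fun j => γ • R j) (dl γ ρ) = γ⁻¹ * (EF z R ρ + UU' z R) := by
  have h1 := dl_EF hγ z R h
  have hU : UU' z (fun j => γ • R j) = γ⁻¹ * UU' z R := by
    unfold UU'
    rw [Finset.mul_sum]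
    refine Finset.sum_congr rfl (fun i _ => ?_)
    rw [Finset.mul_sum]
    refine Finset.sum_congr rfl (fun j _ => ?_)
    rw [← smul_sub, norm_smul, Real.norm_of_nonneg hγ.le, div_eq_mul_inv, mul_inv, div_eq_mul_inv]
    ring
  have hk : ∫ x, dl γ ρ x ^ (5/3 : ℝ) = (γ ^ 2)⁻¹ * ∫ x, ρ x ^ (5/3 : ℝ) := by
    simp only [dl_pow hγ h]
    rw [integral_const_mul, int_inv hγ (fun y => ρ y ^ (5/3 : ℝ))]
    field_simp
  unfold functional
  rw [TF_E1_dbl, repulsion_UU, hU]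
  unfold EF at h1 ⊢
  have h2 : -(∫ x, VV z (fun j => γ • R j) x * dl γ ρ x) + 1/2 * (∫ x, dl γ ρ x * pot (dl γ ρ) x)
      = γ⁻¹ * (-(∫ x, VV z R x * ρ x) + 1/2 * ∫ x, ρ x * pot ρ x) := by
    rw [hk] at h1
    linarith
  have h3 : ∫ x, (∑ j, z j / ‖x - γ • R j‖) * dl γ ρ x = ∫ x, VV z (fun j => γ • R j) x * dl γ ρ x := rfl
  rw [h3, hk]
  have h4 : 3/5 * γ * ((γ ^ 2)⁻¹ * ∫ x, ρ x ^ (5/3 : ℝ)) = γ⁻¹ * (3/5 * ∫ x, ρ x ^ (5/3 : ℝ)) := by
    field_simp
  rw [h4]
  linarith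

/-- the energies are bounded below and their infimum is given by the library -/
lemma energy_fin {γ : ℝ} (hγ : 0 < γ) {z : Fin k → ℝ} (hz : ∀ j, 0 ≤ z j) (R : Fin k → E3) :
    (energies γ z (fun j => γ • R j)).Nonempty ∧ BddBelow (energies γ z (fun j => γ • R j)) ∧
    energy γ z (fun j => γ • R j) = γ⁻¹ * (ee R z + UU' z R) := by
  have hgi : 0 < γ⁻¹ := by positivity
  have hdd : ∀ ρ : E3 → ℝ, dl γ (dl γ⁻¹ ρ) = ρ := by
    intro ρ
    funext x
    unfold dl
    rw [smul_smul, inv_inv, mul_inv_cancel₀ hγ.ne', one_smul]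
    field_simp
  have h := rm_EL hz R
  have hadm := adm_of_nice h.nice h.nonneg
  have hlow : ∀ E ∈ energies γ z (fun j => γ • R j), γ⁻¹ * (ee R z + UU' z R) ≤ E := by
    rintro E ⟨ρ, h1, h2, rfl⟩
    have h3 : Adm (dl γ⁻¹ ρ) := dl_adm hgi h1
    have h5 := functional_dl hγ z R h3.2.1
    rw [hdd] at h5
    rw [h5]
    apply mul_le_mul_of_nonneg_left _ hgi.le
    have := EF_min0 h h3
    unfold ee
    linarith
  have hmem : γ⁻¹ * (ee R z + UU' z R) ∈ energies γ z (fun j => γ • R j) :=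
    ⟨dl γ (rm z R), dl_adm hγ hadm, by rw [dl_mass hγ, rm_mass hz R], functional_dl hγ z R hadm.2.1⟩
  refine ⟨⟨_, hmem⟩, ⟨_, hlow⟩, ?_⟩
  exact le_antisymm (csInf_le ⟨_, hlow⟩ hmem) (le_csInf ⟨_, hmem⟩ hlow)

/-- the electronic energy is invariant under translations -/
lemma ee_shift {K : ℕ} {z : Fin k → ℝ} {R : Fin k → E3} {z' : Fin K → ℝ} {R' : Fin K → E3} (hz : ∀ j, 0 ≤ z j) (hz' : ∀ j, 0 ≤ z' j)
    (c : E3) (hV : ∀ x, VV z' R' x = VV z R (x - c)) : ee R' z' = ee R z := by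
  have hEF : ∀ ρ : E3 → ℝ, EF z' R' (fun x => ρ (x - c)) = EF z R ρ := by
    intro ρ
    unfold EF
    have e1 : ∫ x, ρ (x - c) ^ (5/3 : ℝ) = ∫ x, ρ x ^ (5/3 : ℝ) := integral_sub_right_eq_self (fun x => ρ x ^ (5/3 : ℝ)) c
    have e2 : ∫ x, VV z' R' x * ρ (x - c) = ∫ x, VV z R x * ρ x := by
      simp only [hV]
      exact integral_sub_right_eq_self (fun x => VV z R x * ρ x) c
    have e3 : ∫ x, ρ (x - c) * pot (fun x => ρ (x - c)) x = ∫ x, ρ x * pot ρ x := by
      have : ∀ x, pot (fun x => ρ (x - c)) x = pot ρ (x - c) := fun x => Pool.Agent.Q233.TFSup.pot_shift ρ c x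
      simp only [this]
      exact integral_sub_right_eq_self (fun x => ρ x * pot ρ x) c
    rw [e1, e2, e3]
  have h := rm_EL hz R
  have h' := rm_EL hz' R'
  apply le_antisymm
  · have n1 := Pool.Agent.Q233.TFSup.nice_shift h.nice c
    have := EF_min0 h' (adm_of_nice n1 (fun x => h.nonneg _))
    rw [hEF] at this
    exact this
  · have n1 := Pool.Agent.Q233.TFSup.nice_shift h'.nice (-c)
    have h2 := EF_min0 h (adm_of_nice n1 (fun x => h'.nonneg _))
    rw [← hEF (fun x => rm z' R' (x - -c))] at h2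
    have e : (fun x => (fun x => rm z' R' (x - -c)) (x - c)) = rm z' R' := by funext x; simp
    rw [e] at h2
    exact h2

end

lemma molecule_energy {γ : ℝ} (hγ : 0 < γ) {n : ℕ} (M : Fin n → Molecule) (Y : Fin n → E3) (l : ℝ) {K : ℕ}
    (e : Fin K ≃ (m : Fin n) × Fin (M m).k) (m : Fin n) :
    energy γ (M m).z (M m).R
      = γ⁻¹ * (ee (fun i => γ⁻¹ • (M (e i).1).R (e i).2 + l • (γ⁻¹ • Y (e i).1)) (zg (fun i => (e i).1) (fun i => (M (e i).1).z (e i).2) m)
        + UU' (zg (fun i => (e i).1) (fun i => (M (e i).1).z (e i).2) m) (fun i => γ⁻¹ • (M (e i).1).R (e i).2 + l • (γ⁻¹ • Y (e i).1))) := by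
  have hz0 : ∀ j, 0 ≤ (M m).z j := fun j => ((M m).hz j).le
  have hzg := zg_nonneg (fun i => (e i).1) (z := fun i => (M (e i).1).z (e i).2) (fun i => ((M (e i).1).hz (e i).2).le) m
  set R' : Fin K → E3 := fun i => γ⁻¹ • (M (e i).1).R (e i).2 + l • (γ⁻¹ • Y (e i).1) with hR'
  set z' : Fin K → ℝ := zg (fun i => (e i).1) (fun i => (M (e i).1).z (e i).2) m with hz'
  set c : E3 := l • (γ⁻¹ • Y m) with hc
  have hsum : ∀ F : E3 → ℝ, ∑ i, z' i * F (R' i) = ∑ j, (M m).z j * F (γ⁻¹ • (M m).R j + c) := by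
    intro F
    have e1 : ∑ i, z' i * F (R' i) = ∑ p : (m : Fin n) × Fin (M m).k, (if p.1 = m then (M p.1).z p.2 else 0) * F (γ⁻¹ • (M p.1).R p.2 + l • (γ⁻¹ • Y p.1)) := by
      rw [← e.sum_comp]
      rfl
    rw [e1, Fintype.sum_sigma, Finset.sum_eq_single m]
    · simp [hc]
    · intro m' _ hm
      refine Finset.sum_eq_zero (fun j _ => ?_)
      simp [hm]
    · intro h; exact absurd (Finset.mem_univ _) h
  have hV : ∀ x, VV z' R' x = VV (M m).z (fun j => γ⁻¹ • (M m).R j) (x - c) := by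
    intro x
    have h1 := hsum (fun y => 1 / ‖x - y‖)
    unfold VV
    have e1 : ∑ i, z' i / ‖x - R' i‖ = ∑ i, z' i * (1 / ‖x - R' i‖) := Finset.sum_congr rfl (fun i _ => by ring)
    rw [e1, h1]
    refine Finset.sum_congr rfl (fun j _ => ?_)
    have : x - (γ⁻¹ • (M m).R j + c) = x - c - γ⁻¹ • (M m).R j := by abel
    rw [this]; ring
  have h1 := ee_shift (z := (M m).z) (R := fun j => γ⁻¹ • (M m).R j) hz0 hzg c hV
  have h2 : UU' z' R' = UU' (M m).z (fun j => γ⁻¹ • (M m).R j) := by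
    have p1 := U_pair R' z'
    have p2 := U_pair (fun j => γ⁻¹ • (M m).R j) (M m).z
    have p3 : ∑ i, z' i * VV z' R' (R' i) = ∑ j, (M m).z j * VV (M m).z (fun j => γ⁻¹ • (M m).R j) (γ⁻¹ • (M m).R j) := by
      simp only [hV]
      rw [hsum (fun y => VV (M m).z (fun j => γ⁻¹ • (M m).R j) (y - c))]
      refine Finset.sum_congr rfl (fun j _ => ?_)
      rw [add_sub_cancel_right]
    rw [p3] at p1
    linarith
  rw [h1, h2]
  have h3 := (energy_fin hγ hz0 (fun j => γ⁻¹ • (M m).R j)).2.2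
  have e4 : (fun j => γ • γ⁻¹ • (M m).R j) = (M m).R := by
    funext j; rw [smul_smul, mul_inv_cancel₀ hγ.ne', one_smul]
  rw [e4] at h3
  exact h3

lemma full_energy {γ : ℝ} (hγ : 0 < γ) {n : ℕ} (M : Fin n → Molecule) (Y : Fin n → E3) (l : ℝ) {K : ℕ}
    (e : Fin K ≃ (m : Fin n) × Fin (M m).k) :
    energy γ (fun p : (m : Fin n) × Fin (M m).k => (M p.1).z p.2) (fun p => (M p.1).R p.2 + l • Y p.1)
      = γ⁻¹ * (ee (fun i => γ⁻¹ • (M (e i).1).R (e i).2 + l • (γ⁻¹ • Y (e i).1)) (fun i => (M (e i).1).z (e i).2)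
        + UU' (fun i => (M (e i).1).z (e i).2) (fun i => γ⁻¹ • (M (e i).1).R (e i).2 + l • (γ⁻¹ • Y (e i).1))) := by
  have h3 := (energy_fin hγ (z := fun i => (M (e i).1).z (e i).2) (fun i => ((M (e i).1).hz (e i).2).le)
    (fun i => γ⁻¹ • (M (e i).1).R (e i).2 + l • (γ⁻¹ • Y (e i).1))).2.2
  rw [← h3]
  unfold energy
  congr 1
  have e4 : (fun i => γ • (γ⁻¹ • (M (e i).1).R (e i).2 + l • γ⁻¹ • Y (e i).1)) = fun i => (M (e i).1).R (e i).2 + l • Y (e i).1 := by
    funext i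
    rw [smul_add, smul_smul, mul_inv_cancel₀ hγ.ne', one_smul, smul_comm γ l, smul_smul γ, mul_inv_cancel₀ hγ.ne', one_smul]
  rw [e4]
  exact (energies_equiv e γ (fun p : (m : Fin n) × Fin (M m).k => (M p.1).z p.2) (fun p => (M p.1).R p.2 + l • Y p.1)).symm

/-- **Distant neutral Thomas-Fermi molecules of fixed shape repel like `l⁻⁷`.** For every `γ > 0`,
every family of `n ≥ 2` molecules and all distinct vectors `Y_m` there are constants `0 < c`, `0 < C` with
`c l⁻⁷ ≤ ΔE(l) ≤ C l⁻⁷` for all large `l`. (The infima defining the energies are over nonempty sets that are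
bounded below.) -/
theorem result (γ : ℝ) (hγ : 0 < γ) (n : ℕ) (hn : 2 ≤ n) (M : Fin n → Molecule) (Y : Fin n → E3) (hY : Function.Injective Y) :
    (∀ l : ℝ, (energies γ (fun p : (m : Fin n) × Fin (M m).k => (M p.1).z p.2) (fun p => (M p.1).R p.2 + l • Y p.1)).Nonempty ∧
      BddBelow (energies γ (fun p : (m : Fin n) × Fin (M m).k => (M p.1).z p.2) (fun p => (M p.1).R p.2 + l • Y p.1))) ∧
    (∀ m, (energies γ (M m).z (M m).R).Nonempty ∧ BddBelow (energies γ (M m).z (M m).R)) ∧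
    ∃ c C l₀ : ℝ, 0 < c ∧ 0 < C ∧ 0 < l₀ ∧ ∀ l, l₀ ≤ l →
      c * l ^ (-7 : ℤ) ≤ interaction γ M Y l ∧ interaction γ M Y l ≤ C * l ^ (-7 : ℤ) := by
  classical
  have hgi : 0 < γ⁻¹ := by positivity
  set e : Fin (Fintype.card ((m : Fin n) × Fin (M m).k)) ≃ (m : Fin n) × Fin (M m).k := (Fintype.equivFin _).symm with he
  have hfin : ∀ (k : ℕ) (z : Fin k → ℝ) (hz : ∀ j, 0 < z j) (R : Fin k → E3), (energies γ z R).Nonempty ∧ BddBelow (energies γ z R) := by
    intro k z hz R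
    have h := energy_fin hγ (fun j => (hz j).le) (fun j => γ⁻¹ • R j)
    have e4 : (fun j => γ • γ⁻¹ • R j) = R := by
      funext j; rw [smul_smul, mul_inv_cancel₀ hγ.ne', one_smul]
    rw [e4] at h
    exact ⟨h.1, h.2.1⟩
  refine ⟨fun l => ?_, fun m => hfin _ _ (M m).hz _, ?_⟩
  · rw [← energies_equiv e]
    exact hfin _ _ (fun i => (M (e i).1).hz (e i).2) _
  · have hm0 : (⟨0, by omega⟩ : Fin n) ≠ ⟨1, by omega⟩ := by
      intro h; simp at h
    set i0 := e.symm ⟨⟨0, by omega⟩, ⟨0, (M ⟨0, by omega⟩).hk⟩⟩ with hi0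
    set j0 := e.symm ⟨⟨1, by omega⟩, ⟨0, (M ⟨1, by omega⟩).hk⟩⟩ with hj0
    have hij : (fun i => (e i).1) i0 ≠ (fun i => (e i).1) j0 := by
      simp only [hi0, hj0, Equiv.apply_symm_apply]
      exact hm0
    obtain ⟨c, C, l0, hc, hC, hl0, hmain⟩ := Pool.Agent.Q233.TFLong.two_sided (z := fun i => (M (e i).1).z (e i).2) (fun i => (M (e i).1).hz (e i).2)
      (fun i => (e i).1) hij (fun i => γ⁻¹ • (M (e i).1).R (e i).2) (fun m => γ⁻¹ • Y m)
      (fun a b h => hY (smul_right_injective E3 hgi.ne' h))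
    refine ⟨γ⁻¹ * c, γ⁻¹ * C, l0, by positivity, by positivity, hl0, fun l hl => ?_⟩
    have h := hmain l hl
    have e7 : l ^ (-7 : ℤ) = (l ^ 7)⁻¹ := by
      rw [zpow_neg]; norm_cast
    have hI : interaction γ M Y l = γ⁻¹ * dd (fun i => γ⁻¹ • (M (e i).1).R (e i).2 + l • (γ⁻¹ • Y (e i).1)) (fun i => (e i).1) (fun i => (M (e i).1).z (e i).2) := by
      unfold interaction dd
      rw [full_energy hγ M Y l e, Finset.sum_congr rfl (fun m _ => molecule_energy hγ M Y l e m), ← Finset.mul_sum]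
      ring
    rw [hI, e7, mul_assoc, mul_assoc]
    exact ⟨mul_le_mul_of_nonneg_left h.1 hgi.le, mul_le_mul_of_nonneg_left h.2 hgi.le⟩

end Pool.Agent.Results.MP_88afc7_mp.SeventhPower
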